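import Pool.Agent.Helper96.GB.Frames

/-! Overshears are automorphisms; interpolation by small entire functions. -/

set_option autoImplicit false

open Set Filter Metric Topology

namespace Pool.Agent.Helper78.GB

open Pool.Agent.Helper96.GB

theorem osh_diff (α β : E →L[ℂ] ℂ) (e : E) (χ φ : ℂ → ℂ) (hχ : Differentiable ℂ χ)
    (hφ : Differentiable ℂ φ) : Differentiable ℂ (osh α β e χ φ) := by
  unfold osh
  have h1 : Differentiable ℂ fun x : E => χ (α x) := hχ.comp α.differentiable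
  have h2 : Differentiable ℂ fun x : E => φ (α x) := hφ.comp α.differentiable
  have h3 : Differentiable ℂ fun x : E => (Complex.exp (χ (α x)) - 1) * β x + φ (α x) :=
    ((h1.cexp.sub_const 1).mul β.differentiable).add h2
  exact differentiable_id.add (h3.smul_const e)

theorem osh_osh (α β : E →L[ℂ] ℂ) (e : E) (χ φ : ℂ → ℂ) (hα : α e = 0) (hβ : β e = 1) (x : E) :
    osh α β e (fun z => -χ z) (fun z => -(Complex.exp (-χ z) * φ z)) (osh α β e χ φ x) = x := by
  have h1 : α (osh α β e χ φ x) = α x := by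
    unfold osh
    rw [map_add, map_smul, hα]
    simp
  have h2 : β (osh α β e χ φ x) = Complex.exp (χ (α x)) * β x + φ (α x) := by
    unfold osh
    rw [map_add, map_smul, hβ, smul_eq_mul]
    ring
  have h3 : Complex.exp (-χ (α x)) * Complex.exp (χ (α x)) = 1 := by
    rw [← Complex.exp_add]
    simp
  unfold osh
  unfold osh at h1 h2
  rw [h1, h2, add_assoc, ← add_smul]
  have h4 : ((Complex.exp (χ (α x)) - 1) * β x + φ (α x) +
      ((Complex.exp (-χ (α x)) - 1) * (Complex.exp (χ (α x)) * β x + φ (α x)) +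
        -(Complex.exp (-χ (α x)) * φ (α x)))) = 0 := by
    linear_combination (β x) * h3
  rw [h4, zero_smul, add_zero]

theorem osh_osh' (α β : E →L[ℂ] ℂ) (e : E) (χ φ : ℂ → ℂ) (hα : α e = 0) (hβ : β e = 1) (x : E) :
    osh α β e χ φ (osh α β e (fun z => -χ z) (fun z => -(Complex.exp (-χ z) * φ z)) x) = x := by
  have h := osh_osh α β e (fun z => -χ z) (fun z => -(Complex.exp (-χ z) * φ z)) hα hβ x
  have h1 : (fun z => - -χ z) = χ := by
    funext z
    ring
  have h2 : (fun z => -(Complex.exp (- -χ z) * -(Complex.exp (-χ z) * φ z))) = φ := by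
    funext z
    have h3 : Complex.exp (- -χ z) * Complex.exp (-χ z) = 1 := by
      rw [← Complex.exp_add, neg_neg, add_neg_cancel, Complex.exp_zero]
    linear_combination (φ z) * h3
  rw [h1, h2] at h
  exact h

theorem s_Osh : S_Osh := by
  intro α β e χ φ hα hβ hχ hφ
  have hχ' : Differentiable ℂ fun z => -χ z := hχ.neg
  have hφ' : Differentiable ℂ fun z => -(Complex.exp (-χ z) * φ z) := (hχ'.cexp.mul hφ).neg
  have hF := osh_diff α β e χ φ hχ hφ
  have hF' := osh_diff α β e _ _ hχ' hφ'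
  let F : E ≃ E := ⟨osh α β e χ φ,
    osh α β e (fun z => -χ z) (fun z => -(Complex.exp (-χ z) * φ z)),
    osh_osh α β e χ φ hα hβ, osh_osh' α β e χ φ hα hβ⟩
  exact ⟨⟨F, hF, hF'⟩, fun x => rfl, fun x => rfl⟩

/-- powers make a function small -/
theorem exists_pow_small (P : ℂ → ℂ) (hP : Continuous P) (r ε : ℝ) (a : ℂ) (hr : 0 ≤ r)
    (hε : 0 < ε) (ha : r < ‖a‖) : ∃ m : ℕ, ∀ z, ‖z‖ ≤ r → ‖(z / a) ^ m * P z‖ < ε := by
  obtain ⟨K, hK⟩ := (isCompact_closedBall (0 : ℂ) r).exists_bound_of_continuousOn hP.continuousOn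
  have ha0 : 0 < ‖a‖ := lt_of_le_of_lt hr ha
  have hK0 : 0 < |K| + 1 := by positivity
  obtain ⟨m, hm⟩ := exists_pow_lt_of_lt_one (show 0 < ε / (|K| + 1) by positivity)
    ((div_lt_one ha0).2 ha)
  refine ⟨m, fun z hz => ?_⟩
  have h1 : ‖P z‖ ≤ |K| + 1 := by
    have := hK z (mem_closedBall_zero_iff.2 hz)
    linarith [le_abs_self K]
  have h2 : ‖(z / a) ^ m‖ ≤ (r / ‖a‖) ^ m := by
    rw [norm_pow, norm_div]
    exact pow_le_pow_left₀ (by positivity) (div_le_div_of_nonneg_right hz ha0.le) m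
  rw [norm_mul]
  calc ‖(z / a) ^ m‖ * ‖P z‖ ≤ (r / ‖a‖) ^ m * (|K| + 1) :=
        mul_le_mul h2 h1 (norm_nonneg _) (by positivity)
    _ < ε / (|K| + 1) * (|K| + 1) := mul_lt_mul_of_pos_right hm hK0
    _ = ε := by field_simp

/-- one value, zeros in a finite set -/
theorem exists_one (N : Finset ℂ) (r ε : ℝ) (a c : ℂ) (hr : 0 ≤ r) (hε : 0 < ε) (ha : r < ‖a‖)
    (hN : a ∉ N) : ∃ φ : ℂ → ℂ, Differentiable ℂ φ ∧ φ a = c ∧ (∀ z ∈ N, φ z = 0) ∧
    ∀ z, ‖z‖ ≤ r → ‖φ z‖ < ε := by
  have hP : Differentiable ℂ fun z : ℂ => c * ∏ n ∈ N, ((z - n) / (a - n)) := by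
    refine Differentiable.const_mul ?_ c
    refine Differentiable.fun_finsetProd fun n _ => ?_
    exact (differentiable_id.sub_const n).div_const _
  obtain ⟨m, hm⟩ := exists_pow_small _ hP.continuous r ε a hr hε ha
  have ha0 : a ≠ 0 := by
    intro h
    rw [h, norm_zero] at ha
    linarith
  refine ⟨fun z => (z / a) ^ m * (c * ∏ n ∈ N, ((z - n) / (a - n))),
    ((differentiable_id.div_const a).pow m).mul hP, ?_, ?_, hm⟩
  · have h1 : ∏ n ∈ N, ((a - n) / (a - n)) = 1 := by
      refine Finset.prod_eq_one fun n hn => ?_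
      rw [div_self]
      exact sub_ne_zero.2 fun h => hN (h ▸ hn)
    simp only [h1, div_self ha0, one_pow, mul_one, one_mul]
  · intro z hz
    have h1 : ∏ n ∈ N, ((z - n) / (a - n)) = 0 := Finset.prod_eq_zero hz (by simp)
    simp only [h1, mul_zero]

theorem s_Int : S_Int := by
  classical
  intro N r ε a b c d hr hε ha hb hab haN hbN
  obtain ⟨φ, h1, h2, h3, h4⟩ := exists_one (insert b N) r (ε / 2) a c hr (by linarith) ha (by
    rw [Finset.mem_insert]
    tauto)
  obtain ⟨ψ, g1, g2, g3, g4⟩ := exists_one (insert a N) r (ε / 2) b d hr (by linarith) hb (by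
    rw [Finset.mem_insert]
    rintro (h | h)
    · exact hab h.symm
    · exact hbN h)
  refine ⟨fun z => φ z + ψ z, h1.add g1, ?_, ?_, ?_, ?_⟩
  · show φ a + ψ a = c
    rw [h2, g3 a (Finset.mem_insert_self a N), add_zero]
  · show φ b + ψ b = d
    rw [g2, h3 b (Finset.mem_insert_self b N), zero_add]
  · intro z hz
    show φ z + ψ z = 0
    rw [h3 z (Finset.mem_insert_of_mem hz), g3 z (Finset.mem_insert_of_mem hz), add_zero]
  · intro z hz
    show ‖φ z + ψ z‖ < ε
    have := norm_add_le (φ z) (ψ z)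
    have h5 := h4 z hz
    have h6 := g4 z hz
    linarith

theorem s_IntD : S_IntD := by
  intro r ε a c d hr hε ha
  have ha0 : 0 < ‖a‖ := lt_of_le_of_lt hr ha
  have hane : a ≠ 0 := norm_pos_iff.1 ha0
  have hq0 : 0 ≤ r / ‖a‖ := by positivity
  have hq1 : r / ‖a‖ < 1 := (div_lt_one ha0).2 ha
  have ht1 := (tendsto_pow_atTop_nhds_zero_of_lt_one hq0 hq1).mul_const
    (‖c‖ + ‖d‖ * (r + ‖a‖))
  have ht2 := (tendsto_self_mul_const_pow_of_lt_one hq0 hq1).mul_const
    (‖c‖ / ‖a‖ * (r + ‖a‖))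
  have ht := ht1.add ht2
  rw [zero_mul, zero_mul, add_zero] at ht
  obtain ⟨m, hm⟩ := (ht.eventually (gt_mem_nhds hε)).exists
  have hd1 : HasDerivAt (fun z : ℂ => (z / a) ^ m) (m / a) a := by
    have h1 := ((hasDerivAt_id a).div_const a).pow m
    have h2 : (m : ℂ) * (id a / a) ^ (m - 1) * (1 / a) = m / a := by
      rw [id, div_self hane, one_pow]
      ring
    rw [h2] at h1
    exact h1
  have hd2 : HasDerivAt (fun z : ℂ => c + (d - m * c / a) * (z - a)) (d - m * c / a) a := by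
    have h1 := (((hasDerivAt_id a).sub_const a).const_mul (d - m * c / a)).const_add c
    rw [mul_one] at h1
    exact h1
  refine ⟨fun z => (z / a) ^ m * (c + (d - m * c / a) * (z - a)), ?_, ?_, ?_, ?_⟩
  · exact ((differentiable_id.div_const a).pow m).mul
      (((differentiable_id.sub_const a).const_mul _).const_add c)
  · show (a / a) ^ m * (c + (d - m * c / a) * (a - a)) = c
    rw [div_self hane, one_pow, sub_self, mul_zero, add_zero, one_mul]
  · have h1 := (hd1.mul hd2).deriv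
    have h2 : (m : ℂ) / a * (c + (d - m * c / a) * (a - a)) +
        (a / a) ^ m * (d - m * c / a) = d := by
      rw [div_self hane, one_pow, sub_self, mul_zero, add_zero, one_mul]
      ring
    rw [h2] at h1
    exact h1
  · intro z hz
    have h1 : ‖(z / a) ^ m‖ ≤ (r / ‖a‖) ^ m := by
      rw [norm_pow, norm_div]
      exact pow_le_pow_left₀ (by positivity) (div_le_div_of_nonneg_right hz ha0.le) m
    have h2 : ‖c + (d - m * c / a) * (z - a)‖ ≤
        ‖c‖ + (‖d‖ + m * ‖c‖ / ‖a‖) * (r + ‖a‖) := by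
      refine (norm_add_le _ _).trans ?_
      rw [norm_mul]
      have h3 : ‖d - m * c / a‖ ≤ ‖d‖ + m * ‖c‖ / ‖a‖ := by
        refine (norm_sub_le _ _).trans ?_
        rw [norm_div, norm_mul, Complex.norm_natCast]
      have h4 : ‖z - a‖ ≤ r + ‖a‖ := (norm_sub_le _ _).trans (by linarith)
      have h5 := mul_le_mul h3 h4 (norm_nonneg _) (by positivity)
      linarith
    rw [norm_mul]
    refine lt_of_le_of_lt (mul_le_mul h1 h2 (norm_nonneg _) (by positivity)) ?_
    refine lt_of_le_of_lt (le_of_eq ?_) hm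
    ring

end Pool.Agent.Helper78.GB
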