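import Pool.Agent.Helper96.GB.Frames

/-! Points entering a trap are unbounded in every direction; iterates are unbounded near the
boundary. -/

set_option autoImplicit false

open Set Filter Metric Topology

namespace Pool.Agent.Helper78.GB

open Pool.Agent.Helper96.GB

theorem isOpen_Om {F : E → E} (hF : Continuous F) (t : E) (r : ℝ) : IsOpen (Om F t r) := by
  have : Om F t r = ⋃ k : ℕ, (F^[k]) ⁻¹' ball t (4 * r) := by
    ext x
    simp [Om]
  rw [this]
  exact isOpen_iUnion fun k => isOpen_ball.preimage (hF.iterate k)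

/-- inverse iterates of a point entering the trap enter the trap -/
theorem symm_iterate_mem (A : Aut2) (t : E) (r : ℝ) (m : ℕ) {x : E} (hx : x ∈ Om A.F t r) :
    A.F.symm^[m] x ∈ Om A.F t r := by
  induction m with
  | zero => exact hx
  | succ m ih =>
    obtain ⟨k, hk⟩ := ih
    refine ⟨k + 1, ?_⟩
    rw [Function.iterate_succ_apply' A.F.symm m, Function.iterate_succ_apply A.F k,
      A.F.apply_symm_apply]
    exact hk

theorem symm_iterate_iterate (A : Aut2) (m : ℕ) (x : E) : A.F.symm^[m] (A.F^[m] x) = x := by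
  have h : Function.LeftInverse A.F.symm A.F := A.F.symm_apply_apply
  exact h.iterate m x

theorem s_Unb (hT : S_TrapFix) : S_Unb := by
  intro A t r n lam hlam htrap M
  by_contra hcon
  push Not at hcon
  obtain ⟨p, hp, hpfix, hconv, -⟩ := hT A.F t r n A.diff htrap
  obtain ⟨hr, hn, -⟩ := htrap
  have hsub : ball p (3 * r) ⊆ ball t (4 * r) := by
    intro z hz
    rw [mem_ball] at hz hp ⊢
    linarith [dist_triangle z p t]
  have hOm : ∀ x ∈ ball p (3 * r), x ∈ Om A.F t r := fun x hx => ⟨0, hsub hx⟩
  have hpball : p ∈ ball p (3 * r) := mem_ball_self (by linarith)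
  have hM0 : 0 ≤ M := (norm_nonneg _).trans (hcon p (hOm p hpball))
  -- the fixed point and the inverse iterates
  have hpj : ∀ j : ℕ, A.F^[n * j] p = p := by
    intro j
    rw [Function.iterate_mul]
    exact Function.iterate_fixed hpfix j
  have hpj' : ∀ j : ℕ, A.F.symm^[n * j] p = p := by
    intro j
    have h := symm_iterate_iterate A (n * j) p
    rwa [hpj j] at h
  -- the estimate
  have hest : ∀ j : ℕ, ∀ y ∈ ball p (3 * r),
      dist (lam (A.F.symm^[n * j] y)) (lam p) ≤ 2 * M / (3 * r) * dist y p := by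
    intro j y hy
    have hd : Differentiable ℂ fun z => lam (A.F.symm^[n * j] z) :=
      lam.differentiable.comp (A.diff_symm.iterate (n * j))
    have hmap : MapsTo (fun z => lam (A.F.symm^[n * j] z)) (ball p (3 * r))
        (closedBall (lam (A.F.symm^[n * j] p)) (2 * M)) := by
      intro z hz
      rw [mem_closedBall, dist_eq_norm, hpj' j]
      have h1 := hcon _ (symm_iterate_mem A t r (n * j) (hOm z hz))
      have h2 := hcon p (hOm p hpball)
      exact (norm_sub_le _ _).trans (by linarith)
    have h := Complex.dist_le_div_mul_dist_of_mapsTo_ball hd.differentiableOn hmap hy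
    rwa [hpj' j] at h
  -- the functional is constant near `p`
  have hconst : ∀ x ∈ ball p (3 * r), lam x = lam p := by
    intro x hx
    have hlim := hconv x (hsub hx)
    have hlim2 : Tendsto (fun j : ℕ => 2 * M / (3 * r) * dist (A.F^[n * j] x) p) atTop (𝓝 0) := by
      have h1 : Tendsto (fun j : ℕ => dist (A.F^[n * j] x) p) atTop (𝓝 0) :=
        tendsto_iff_dist_tendsto_zero.1 hlim
      have h2 := h1.const_mul (2 * M / (3 * r))
      rwa [mul_zero] at h2
    have hev : ∀ᶠ j : ℕ in atTop, dist (lam x) (lam p) ≤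
        2 * M / (3 * r) * dist (A.F^[n * j] x) p := by
      have h1 : ∀ᶠ j : ℕ in atTop, A.F^[n * j] x ∈ ball p (3 * r) :=
        hlim.eventually (isOpen_ball.mem_nhds hpball)
      filter_upwards [h1] with j hj
      have h2 := hest j _ hj
      rwa [symm_iterate_iterate] at h2
    have h3 : dist (lam x) (lam p) ≤ 0 := ge_of_tendsto hlim2 hev
    exact dist_le_zero.1 h3
  refine hlam (ContinuousLinearMap.ext fun v => ?_)
  obtain ⟨s, hs0, hs⟩ : ∃ s : ℝ, 0 < s ∧ s * ‖v‖ < 3 * r := by
    refine ⟨r / (‖v‖ + 1), by positivity, ?_⟩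
    have h1 : r / (‖v‖ + 1) * ‖v‖ ≤ r := by
      rw [div_mul_eq_mul_div, div_le_iff₀ (by positivity)]
      nlinarith [norm_nonneg v]
    linarith
  have hmem : p + (s : ℂ) • v ∈ ball p (3 * r) := by
    rw [mem_ball, dist_eq_norm, add_sub_cancel_left, norm_smul, Complex.norm_real,
      Real.norm_of_nonneg hs0.le]
    exact hs
  have h1 := hconst _ hmem
  rw [map_add, map_smul, add_eq_left, smul_eq_mul, mul_eq_zero] at h1
  rcases h1 with h1 | h1
  · exact absurd (Complex.ofReal_eq_zero.1 h1) hs0.ne'
  · simpa using h1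

theorem s_Front : S_Front := by
  intro A t r n htrap x hx U hU hxU M
  by_contra hcon
  push Not at hcon
  obtain ⟨hr, hn, hm⟩ := htrap
  have hOpen := isOpen_Om A.diff.continuous t r
  obtain ⟨d, hd, hball⟩ := Metric.isOpen_iff.1 hU x hxU
  have hM0 : 0 ≤ M := (norm_nonneg _).trans (hcon x hxU 0)
  have hlip : ∀ k : ℕ, ∀ y ∈ ball x d, dist (A.F^[k] y) (A.F^[k] x) ≤ 2 * M / d * dist y x := by
    intro k y hy
    have hmap : MapsTo (A.F^[k]) (ball x d) (closedBall (A.F^[k] x) (2 * M)) := by
      intro z hz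
      rw [mem_closedBall, dist_eq_norm]
      have h1 := hcon z (hball hz) k
      have h2 := hcon x hxU k
      exact (norm_sub_le _ _).trans (by linarith)
    exact Complex.dist_le_div_mul_dist_of_mapsTo_ball (A.diff.iterate k).differentiableOn hmap hy
  have hδ : 0 < min d (r / (2 * M / d + 1)) := lt_min hd (by positivity)
  obtain ⟨y, hyOm, hyx⟩ := Metric.mem_closure_iff.1 (frontier_subset_closure hx) _ hδ
  obtain ⟨k, hk⟩ := hyOm
  have hyd : y ∈ ball x d := by
    rw [mem_ball, dist_comm]
    exact hyx.trans_le (min_le_left _ _)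
  have h1 : A.F^[n + k] y ∈ ball t r := by
    rw [Function.iterate_add_apply]
    exact hm _ (ball_subset_closedBall hk)
  have h2 := hlip (n + k) y hyd
  have h3 : 2 * M / d * dist y x ≤ r := by
    have h4 : dist y x ≤ r / (2 * M / d + 1) := by
      rw [dist_comm]
      exact (hyx.trans_le (min_le_right _ _)).le
    have h5 : 0 ≤ 2 * M / d := by positivity
    rw [le_div_iff₀ (by linarith)] at h4
    have h6 := dist_nonneg (x := y) (y := x)
    nlinarith
  have hxOm : x ∈ Om A.F t r := by
    refine ⟨n + k, ?_⟩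
    rw [mem_ball] at h1 ⊢
    have h4 := dist_triangle (A.F^[n + k] x) (A.F^[n + k] y) t
    rw [dist_comm (A.F^[n + k] x) (A.F^[n + k] y)] at h4
    linarith
  have h4 := hx.2
  rw [hOpen.interior_eq] at h4
  exact h4 hxOm

end Pool.Agent.Helper78.GB
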